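import Mathlib
import Pool.Agent.H269.Flow.Base
import Pool.Agent.H269.Flow.Count
import Pool.Agent.H269.Flow.Inv
import Pool.Agent.H269.Flow.Fixed
import Pool.Agent.H269.Flow.Fixed2

/-!
# Finite invariance of flowchart complexity measures

`O` is the set of the variables that may serve as output variable: `O = Set.univ` means that every
halt node names its output variable, `O = {0}` that the output is in the input variable,
`O = {1}` that the output is in another fixed variable.
-/

namespace Pool.Agent.Results.MP_091941_lc.FiniteInvariance

open Filter Pool.Agent.H269.Flow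

/-- (1) No flowchart measure is finitely invariant, the time bound `t = 2` being a witness.
(2) If halt nodes name their output variable, then for every universal interpretation `F` the
class `Φ(t)` is closed under finite variation whenever `t` tends to infinity.
(3) For finite `F` a nonempty class `Φ(t)` closed under finite variation has `t → ∞`.
(4) If the output is in a fixed variable (the input variable `0`, or another variable `1`), there
are a finite universal interpretation of recursive functions and predicates, and total recursive
functions `f`, `g`, `t` with `t → ∞`, `f` and `g` different in one point only, `f ∈ Φ(t)` and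
`g ∉ Φ(t)`. -/
theorem result :
    (∀ (O : Set ℕ) (F : Interp), O.Nonempty →
      ∃ f g : ℕ → ℕ, Computable f ∧ Computable g ∧ (∀ x, x ≠ 0 → f x = g x) ∧
        f ∈ Cls O F (fun _ => 2) ∧ g ∉ Cls O F (fun _ => 2)) ∧
    (∀ F : Interp, Universal Set.univ F → ∀ t : ℕ → ℕ, Tendsto t atTop atTop →
      InvAt Set.univ F t) ∧
    (∀ (O : Set ℕ) (F : Interp), F.IsFinite → ∀ t : ℕ → ℕ, (Cls O F t).Nonempty →
      InvAt O F t → Tendsto t atTop atTop) ∧
    (∀ o : ℕ, o = 0 ∨ o = 1 → ∃ F : Interp, F.Recursive ∧ F.IsFinite ∧ Universal {o} F ∧
      ∃ f g t : ℕ → ℕ, Computable f ∧ Computable g ∧ Computable t ∧ Tendsto t atTop atTop ∧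
        (∀ x, x ≠ 1 → f x = g x) ∧ f ∈ Cls {o} F t ∧ g ∉ Cls {o} F t) := by
  refine ⟨fun O F hO => not_finInv hO F, fun F hU t ht => invAt_of_tendsto hU ht, ?_, ?_⟩
  · intro O F hF t hne hinv
    by_contra hcon
    exact not_invAt_of_not_tendsto hF hne hcon hinv
  · rintro o (rfl | rfl)
    · exact ⟨FB, FB_recursive, FB_finite, FB_universal, fixed_not_inv⟩
    · exact ⟨Sep.FC, Sep.FC_recursive, Sep.FC_finite, Sep.FC_universal, Sep.fixed_not_inv⟩

end Pool.Agent.Results.MP_091941_lc.FiniteInvariance
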